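import Pool.Agent.H90.STK.StmtsT

/-!
# Covered families of tubes are sticky
-/

set_option autoImplicit false

namespace Pool.STK

open Finset Real MeasureTheory
open scoped RealInnerProductSpace
open Pool.Agent.H49.Ent Pool.Agent.H32.Dense
open Pool.Agent.H53.Kak (E tube norm_le_of_coord)
open Pool.Agent.H53.Dns (Mx psl slp coord_le)

namespace TST

variable {d : ℕ} {ι : Type}

lemma hm_pos (d : ℕ) : 0 < hm d := by unfold hm; positivity

lemma hm_mul (d : ℕ) : 8 * (((d : ℝ) + 1) * hm d) = 1 := by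
  unfold hm
  field_simp

lemma hm_le (d : ℕ) : 8 * hm d ≤ 1 := by
  have h1 := hm_mul d
  have h2 := hm_pos d
  have h3 : (0 : ℝ) ≤ d := by positivity
  nlinarith

/-- Floors of close numbers are close. -/
lemma floor_near {x y M : ℝ} (h : |x - y| ≤ M) : |((⌊x⌋ - ⌊y⌋ : ℤ) : ℝ)| ≤ M + 1 := by
  have h1 := Int.floor_le x
  have h2 := Int.lt_floor_add_one x
  have h3 := Int.floor_le y
  have h4 := Int.lt_floor_add_one y
  rw [abs_le] at h ⊢
  push_cast
  constructor <;> linarith [h.1, h.2]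

/-- Directions with the same rounded slopes are close. -/
lemma dir_near {k : Fin (d + 1)} {g : ℤ} {q : Fin d → ℤ} {c e : ι → E d} (h : Cell k g q c e)
    {j : ℕ} {i i' : ι} (hij : Fl (dT k e) j i = Fl (dT k e) j i') :
    ‖e i - e i'‖ ≤ 16 * ((d : ℝ) + 1) ^ 2 * ((2 : ℝ) ^ j)⁻¹ := by
  have h2j : (0 : ℝ) < 2 ^ j := by positivity
  have hh := hm_pos d
  have hsl : ∀ l, |slp k (e i) l - slp k (e i') l| ≤ 8 * ((d : ℝ) + 1) * ((2 : ℝ) ^ j)⁻¹ := by
    intro l
    have h1 : ⌊2 ^ j * dT k e i l⌋ = ⌊2 ^ j * dT k e i' l⌋ := congrFun hij l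
    have h2 := Int.abs_sub_lt_one_of_floor_eq_floor h1
    unfold dT at h2
    have h3 : (2 : ℝ) ^ j * (hm d * slp k (e i) l) - 2 ^ j * (hm d * slp k (e i') l) =
        (2 ^ j * hm d) * (slp k (e i) l - slp k (e i') l) := by ring
    rw [h3, abs_mul, abs_of_pos (by positivity)] at h2
    have h4 : 8 * ((d : ℝ) + 1) * ((2 : ℝ) ^ j)⁻¹ = (2 ^ j * hm d)⁻¹ := by
      have := hm_mul d
      rw [eq_comm, mul_inv, mul_comm]
      congr 1
      unfold hm
      rw [one_div, inv_inv]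
    rw [h4, ← one_div, le_div_iff₀ (by positivity)]
    linarith
  have hcoord : ∀ r, |((e i k)⁻¹ • e i - (e i' k)⁻¹ • e i') r| ≤
      8 * ((d : ℝ) + 1) * ((2 : ℝ) ^ j)⁻¹ := by
    intro r
    have hk1 := (h.mx i).ne (h.unit i)
    have hk0 := (h.mx i').ne (h.unit i')
    simp only [PiLp.sub_apply, PiLp.smul_apply, smul_eq_mul]
    rcases eq_or_ne r k with rfl | hr
    · rw [inv_mul_cancel₀ hk1, inv_mul_cancel₀ hk0, sub_self, abs_zero]
      positivity
    · obtain ⟨l, rfl⟩ := Fin.exists_succAbove_eq hr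
      have := hsl l
      simp only [slp] at this
      rw [inv_mul_eq_div, inv_mul_eq_div]
      exact this
  have hnorm := norm_le_of_coord (by positivity) hcoord
  have hfin : 2 * (((d : ℝ) + 1) * (8 * ((d : ℝ) + 1) * ((2 : ℝ) ^ j)⁻¹)) =
      16 * ((d : ℝ) + 1) ^ 2 * ((2 : ℝ) ^ j)⁻¹ := by ring
  rcases h.sg with hs | hs
  · refine (Pool.Agent.H32.AKT.slope_sep (j := k) (h.unit i) (h.unit i')
      (hs i) (hs i')).trans ?_
    linarith
  · have h3 := Pool.Agent.H32.AKT.slope_sep (j := k) (e := -e i) (e' := -e i')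
      (by rw [norm_neg]; exact h.unit i) (by rw [norm_neg]; exact h.unit i')
      (by simp only [PiLp.neg_apply]; linarith [hs i])
      (by simp only [PiLp.neg_apply]; linarith [hs i'])
    have e1 : -e i - -e i' = -(e i - e i') := by abel
    have e2 : ((-e i) k)⁻¹ • -e i - ((-e i') k)⁻¹ • -e i' =
        (e i k)⁻¹ • e i - (e i' k)⁻¹ • e i' := by
      simp only [PiLp.neg_apply, inv_neg, smul_neg, neg_smul, neg_neg]
    rw [e1, norm_neg, e2] at h3
    linarith

/-- The height of the centre. -/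
lemma ht_near {k : Fin (d + 1)} {g : ℤ} {q : Fin d → ℤ} {c e : ι → E d} (h : Cell k g q c e)
    (i : ι) : |(g : ℝ) * hm d - c i k| ≤ 2 * hm d := by
  have hh := hm_pos d
  have h1 : ⌊c i k / hm d⌋ = g + 1 := by have := h.ht i; omega
  rw [Int.floor_eq_iff] at h1
  push_cast at h1
  obtain ⟨h2, h3⟩ := h1
  rw [le_div_iff₀ hh] at h2
  rw [div_lt_iff₀ hh] at h3
  rw [abs_le]
  constructor <;> linarith

/-- Centres are in a box. -/
lemma cen_near {k : Fin (d + 1)} {g : ℤ} {q : Fin d → ℤ} {c e : ι → E d} (h : Cell k g q c e)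
    (i i' : ι) (r : Fin (d + 1)) : |c i r - c i' r| ≤ 2 := by
  have hh := hm_pos d
  have hh8 := hm_le d
  have k1 := abs_le.mp (ht_near h i)
  have k2 := abs_le.mp (ht_near h i')
  rcases eq_or_ne r k with rfl | hr
  · rw [abs_le]
    constructor <;> linarith [k1.1, k1.2, k2.1, k2.2]
  · obtain ⟨l, rfl⟩ := Fin.exists_succAbove_eq hr
    have h1 : fl 0 (uT k g c e i) l = fl 0 (uT k g c e i') l := by rw [h.ps i, h.ps i']
    have h2 := Int.abs_sub_lt_one_of_floor_eq_floor h1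
    simp only [pow_zero, one_mul] at h2
    have h3 : ∀ i : ι, |uT k g c e i l - c i (k.succAbove l)| ≤ 2 * hm d := by
      intro i
      have e1 : uT k g c e i l - c i (k.succAbove l) =
          ((g : ℝ) * hm d - c i k) * slp k (e i) l := by
        unfold uT psl; ring
      rw [e1, abs_mul]
      have h4 := (h.mx i).slp (h.unit i) l
      have h5 := ht_near h i
      calc |(g : ℝ) * hm d - c i k| * |slp k (e i) l| ≤ (2 * hm d) * 1 := by gcongr
        _ = _ := mul_one _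
    have k3 := abs_le.mp (h3 i)
    have k4 := abs_le.mp (h3 i')
    have k5 := abs_lt.mp h2
    rw [abs_le]
    constructor <;> linarith [k3.1, k3.2, k4.1, k4.2, k5.1, k5.2]

/-- Rounded centre. -/
noncomputable def wc (c : ι → E d) (i : ι) (r : Fin (d + 1)) : ℤ := ⌊((d : ℝ) + 1) * c i r⌋

lemma wc_near {c : ι → E d} {i i' : ι} (h : wc c i = wc c i') : ‖c i - c i'‖ ≤ 1 := by
  have hd : (0 : ℝ) < (d : ℝ) + 1 := by positivity
  have h1 : ∀ r, |(c i - c i') r| ≤ ((d : ℝ) + 1)⁻¹ := by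
    intro r
    have h2 := Int.abs_sub_lt_one_of_floor_eq_floor (congrFun h r)
    rw [← mul_sub, abs_mul, abs_of_pos hd] at h2
    rw [PiLp.sub_apply, ← one_div, le_div_iff₀ hd]
    linarith
  have h3 := norm_le_of_coord (by positivity) h1
  rwa [mul_inv_cancel₀ hd.ne'] at h3

lemma wc_bdd {k : Fin (d + 1)} {g : ℤ} {q : Fin d → ℤ} {c e : ι → E d} (h : Cell k g q c e)
    (i i' : ι) (r : Fin (d + 1)) : |((wc c i r - wc c i' r : ℤ) : ℝ)| ≤ 2 * ((d : ℝ) + 1) + 1 := by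
  refine floor_near ?_
  rw [← mul_sub, abs_mul, abs_of_pos (by positivity : (0 : ℝ) < (d : ℝ) + 1), mul_comm]
  have := cen_near h i i' r
  gcongr

/-- Two points in a cylinder. -/
lemma cyl_two {r : ℝ} {c f x y : E d} (hx : x ∈ cyl r c f) (hy : y ∈ cyl r c f) :
    ‖(x - y) - ⟪x - y, f⟫ • f‖ ≤ 2 * r := by
  have h1 : (x - y) - ⟪x - y, f⟫ • f =
      ((x - c) - ⟪x - c, f⟫ • f) - ((y - c) - ⟪y - c, f⟫ • f) := by
    have h2 : x - y = (x - c) - (y - c) := by abel
    rw [h2, inner_sub_left, sub_smul]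
    abel
  rw [h1]
  refine (norm_sub_le _ _).trans ?_
  have h3 : ‖(x - c) - ⟪x - c, f⟫ • f‖ ≤ r := hx
  have h4 : ‖(y - c) - ⟪y - c, f⟫ • f‖ ≤ r := hy
  linarith

/-- Points of the axis are in the tube. -/
lemma axis_mem {δ s : ℝ} (hδ : 0 ≤ δ) {c e : E d} (he : ‖e‖ = 1) (hs : |s| ≤ 1 / 2) :
    c + s • e ∈ tube δ c e := by
  have h1 : c + s • e - c = s • e := by abel
  have h2 : ⟪s • e, e⟫ = s := by
    rw [inner_smul_left, real_inner_self_eq_norm_sq, he]
    simp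
  refine ⟨?_, ?_⟩
  · rw [h1, h2]; exact hs
  · rw [h1, h2, sub_self, norm_zero]; exact hδ

/-- Tubes in one cylinder have close positions. -/
lemma pos_near {k : Fin (d + 1)} {g : ℤ} {q : Fin d → ℤ} {c e : ι → E d} (h : Cell k g q c e)
    {δ r : ℝ} (hδ : 0 ≤ δ) (hr : 4 * ((d : ℝ) + 1) * r ≤ 1) {x f : E d} (hf : ‖f‖ = 1)
    {i i' : ι} (hi : tube δ (c i) (e i) ⊆ cyl r x f) (hi' : tube δ (c i') (e i') ⊆ cyl r x f)
    (l : Fin d) : |uT k g c e i l - uT k g c e i' l| ≤ 6 * ((d : ℝ) + 1) * r := by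
  have hd : (0 : ℝ) < (d : ℝ) + 1 := by positivity
  have hd1 : (1 : ℝ) ≤ (d : ℝ) + 1 := by have : (0 : ℝ) ≤ d := by positivity
                                         linarith
  have hh := hm_pos d
  -- the points of the axes
  have hax : ∀ i : ι, ∃ a : E d, a ∈ tube δ (c i) (e i) ∧ a k = g * hm d ∧
      ∀ l, a (k.succAbove l) = uT k g c e i l := by
    intro i
    have hk := (h.mx i).ne (h.unit i)
    have hkp := (h.mx i).pos (h.unit i)
    refine ⟨c i + (((g : ℝ) * hm d - c i k) / e i k) • e i, axis_mem hδ (h.unit i) ?_, ?_, ?_⟩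
    · rw [abs_div, div_le_iff₀ (abs_pos.mpr hk)]
      have h1 := ht_near h i
      have h2 := hm_mul d
      have h3 : 4 * hm d ≤ |e i k| := by
        refine le_trans ?_ hkp
        rw [le_div_iff₀ hd]
        nlinarith
      linarith
    · simp only [PiLp.add_apply, PiLp.smul_apply, smul_eq_mul]
      field_simp
      ring
    · intro l
      simp only [PiLp.add_apply, PiLp.smul_apply, smul_eq_mul]
      unfold uT psl slp
      field_simp
  obtain ⟨a, ha1, ha2, ha3⟩ := hax i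
  obtain ⟨a', ha1', ha2', ha3'⟩ := hax i'
  have hr0 : 0 ≤ r := (norm_nonneg _).trans (hi ha1)
  -- the direction of the cylinder
  have hdir : ‖e i - ⟪e i, f⟫ • f‖ ≤ 2 * r := by
    have h1 := hi (axis_mem hδ (c := c i) (h.unit i) (s := 1 / 2) (by rw [abs_of_pos] <;> norm_num))
    have h2 := hi (axis_mem hδ (c := c i) (h.unit i) (s := -(1 / 2)) (by
      rw [abs_neg, abs_of_pos] <;> norm_num))
    have h3 := cyl_two h1 h2
    have h4 : c i + (1 / 2 : ℝ) • e i - (c i + (-(1 / 2) : ℝ) • e i) = e i := by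
      rw [neg_smul]
      have : (1 / 2 : ℝ) • e i + (1 / 2 : ℝ) • e i = e i := by
        rw [← add_smul]; norm_num
      calc _ = (1 / 2 : ℝ) • e i + (1 / 2 : ℝ) • e i := by abel
        _ = e i := this
    rwa [h4] at h3
  have hin : |⟪e i, f⟫| ≤ 1 := by
    have := abs_real_inner_le_norm (e i) f
    rwa [h.unit i, hf, one_mul] at this
  have hfk : 1 / (2 * ((d : ℝ) + 1)) ≤ |f k| := by
    have h1 := (coord_le (e i - ⟪e i, f⟫ • f) k).trans hdir
    simp only [PiLp.sub_apply, PiLp.smul_apply, smul_eq_mul] at h1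
    have h2 := (h.mx i).pos (h.unit i)
    have h3 : |e i k| ≤ |e i k - ⟪e i, f⟫ * f k| + |⟪e i, f⟫ * f k| := by
      have := abs_add_le (e i k - ⟪e i, f⟫ * f k) (⟪e i, f⟫ * f k)
      simpa using this
    have h4 : |⟪e i, f⟫ * f k| ≤ |f k| := by
      rw [abs_mul]
      exact mul_le_of_le_one_left (abs_nonneg _) hin
    have h5 : 2 * r ≤ 1 / (2 * ((d : ℝ) + 1)) := by
      rw [le_div_iff₀ (by positivity)]
      linarith
    have h6 : 1 / ((d : ℝ) + 1) = 1 / (2 * ((d : ℝ) + 1)) + 1 / (2 * ((d : ℝ) + 1)) := by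
      field_simp; norm_num
    linarith
  have hz := cyl_two (hi ha1) (hi' ha1')
  set z : E d := a - a' with hzdef
  have hzk : z k = 0 := by
    rw [hzdef, PiLp.sub_apply, ha2, ha2', sub_self]
  have hzf : |⟪z, f⟫| ≤ 4 * ((d : ℝ) + 1) * r := by
    have h1 := (coord_le (z - ⟪z, f⟫ • f) k).trans hz
    simp only [PiLp.sub_apply, PiLp.smul_apply, smul_eq_mul] at h1
    rw [hzk, zero_sub, abs_neg, abs_mul] at h1
    have h2 : |⟪z, f⟫| * (1 / (2 * ((d : ℝ) + 1))) ≤ 2 * r :=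
      (mul_le_mul_of_nonneg_left hfk (abs_nonneg _)).trans h1
    rw [mul_one_div, div_le_iff₀ (by positivity)] at h2
    linarith
  have h1 := (coord_le (z - ⟪z, f⟫ • f) (k.succAbove l)).trans hz
  simp only [PiLp.sub_apply, PiLp.smul_apply, smul_eq_mul] at h1
  have h2 : z (k.succAbove l) = uT k g c e i l - uT k g c e i' l := by
    rw [hzdef, PiLp.sub_apply, ha3, ha3']
  rw [← h2]
  have h3 : |z (k.succAbove l)| ≤ |z (k.succAbove l) - ⟪z, f⟫ * f (k.succAbove l)| +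
      |⟪z, f⟫ * f (k.succAbove l)| := by
    have := abs_add_le (z (k.succAbove l) - ⟪z, f⟫ * f (k.succAbove l))
      (⟪z, f⟫ * f (k.succAbove l))
    simpa using this
  have h4 : |⟪z, f⟫ * f (k.succAbove l)| ≤ 4 * ((d : ℝ) + 1) * r := by
    rw [abs_mul]
    have h5 : |f (k.succAbove l)| ≤ 1 := by
      have := coord_le f (k.succAbove l)
      rwa [hf] at this
    calc |⟪z, f⟫| * |f (k.succAbove l)| ≤ (4 * ((d : ℝ) + 1) * r) * 1 := by gcongr
      _ = _ := mul_one _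
  have h5 : 2 * r ≤ 2 * ((d : ℝ) + 1) * r := by nlinarith
  linarith

end TST

open TST in
/-- **TST**. -/
theorem tst_thm : TSTStmt := by
  intro d L c₄ hL hc₄
  have hd : (0 : ℝ) < (d : ℝ) + 1 := by positivity
  obtain ⟨M, hM⟩ : ∃ M : ℝ, M = max (16 * ((d : ℝ) + 1) ^ 2) (1 / c₄) := ⟨_, rfl⟩
  have hM1 : 16 * ((d : ℝ) + 1) ^ 2 ≤ M := by rw [hM]; exact le_max_left _ _
  have hM2 : 1 / c₄ ≤ M := by rw [hM]; exact le_max_right _ _
  have hM0 : 0 < M := lt_of_lt_of_le (by positivity) hM1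
  have hL0 : 0 < L := by linarith
  obtain ⟨M₀, hM₀⟩ : ∃ M₀ : ℝ, M₀ = 4 * ((d : ℝ) + 1) * (L * M) := ⟨_, rfl⟩
  have hM₀0 : 0 < M₀ := by rw [hM₀]; positivity
  obtain ⟨M₁, hM₁⟩ : ∃ M₁ : ℝ, M₁ = 6 * ((d : ℝ) + 1) * (L * M) + 1 := ⟨_, rfl⟩
  have hM₁0 : 0 < M₁ := by rw [hM₁]; positivity
  obtain ⟨M₂, hM₂⟩ : ∃ M₂ : ℝ, M₂ = 2 * ((d : ℝ) + 1) + 1 := ⟨_, rfl⟩
  have hM₂0 : 0 < M₂ := by rw [hM₂]; positivity
  obtain ⟨C₅, hC₅⟩ : ∃ C₅ : ℝ, C₅ = max ((2 * M₀ + 1) ^ d)
    ((2 * M₂ + 1) ^ (d + 1) * (2 * M₁ + 1) ^ d) := ⟨_, rfl⟩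
  have hC1 : (2 * M₀ + 1) ^ d ≤ C₅ := by rw [hC₅]; exact le_max_left _ _
  have hC2 : (2 * M₂ + 1) ^ (d + 1) * (2 * M₁ + 1) ^ d ≤ C₅ := by
    rw [hC₅]; exact le_max_right _ _
  have hC3 : 1 ≤ C₅ := le_trans (one_le_pow₀ (by linarith)) hC1
  refine ⟨C₅, hC3, ?_⟩
  intro δ J A hδ hδ1 hJ ι _ c e k g q hcell hA hcov p hp j hj
  have h2j : (0 : ℝ) < 2 ^ j := by positivity
  have hA1 : (1 : ℝ) ≤ A := by exact_mod_cast hA
  have hA0 : (0 : ℝ) < A := by linarith
  obtain ⟨ρ, hρ⟩ : ∃ ρ : ℝ, ρ = M * ((2 : ℝ) ^ j)⁻¹ := ⟨_, rfl⟩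
  have hρδ : δ ≤ ρ := by
    have h1 : ((2 : ℝ) ^ J)⁻¹ ≤ ((2 : ℝ) ^ j)⁻¹ := by
      gcongr
      norm_num
    have h2 : c₄ * δ ≤ ((2 : ℝ) ^ j)⁻¹ := hJ.trans h1
    have h3 : δ ≤ 1 / c₄ * ((2 : ℝ) ^ j)⁻¹ := by
      rw [one_div, ← div_eq_inv_mul, le_div_iff₀ hc₄]
      linarith
    rw [hρ]
    exact h3.trans (by gcongr)
  by_cases hcase : 4 * ((d : ℝ) + 1) * (L * ρ) ≤ 1
  · -- small scales
    have : Nonempty ι := by
      by_contra hcon
      rw [not_nonempty_iff] at hcon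
      have := hp.sum_one
      simp at this
    have hρ1 : ρ ≤ 1 := by
      have h1 : 0 < ρ := by linarith
      have h2 : (0 : ℝ) ≤ d := by positivity
      have h3 : ρ ≤ L * ρ := le_mul_of_one_le_left h1.le hL
      have h4 : L * ρ ≤ 4 * ((d : ℝ) + 1) * (L * ρ) := by
        have h5 : 0 < L * ρ := by positivity
        nlinarith
      linarith
    let W : ι → (Fin (d + 1) → ℤ) × (Fin d → ℤ) := fun i => (wc c i, Fl (dT k e) j i)
    have hrep : ∀ i, W (Function.invFun W (W i)) = W i := fun i =>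
      Function.invFun_eq ⟨i, rfl⟩
    have hch : ∀ v : (Fin (d + 1) → ℤ) × (Fin d → ℤ), ∃ F : Finset (E d × E d), F.card ≤ A ∧
        (∀ f ∈ F, ‖f.2‖ = 1) ∧ ∀ i, ‖c i - c (Function.invFun W v)‖ ≤ 1 →
          ‖e i - e (Function.invFun W v)‖ ≤ ρ →
          ∃ f ∈ F, tube δ (c i) (e i) ⊆ cyl (L * ρ) f.1 f.2 := fun v =>
      hcov ρ hρδ hρ1 (c (Function.invFun W v)) (e (Function.invFun W v)) (hcell.unit _)
    choose F hF1 hF2 hF3 using hch
    have hex : ∀ i, ∃ f ∈ F (W i), tube δ (c i) (e i) ⊆ cyl (L * ρ) f.1 f.2 := by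
      intro i
      refine hF3 (W i) i ?_ ?_
      · refine wc_near ?_
        have := (Prod.ext_iff.mp (hrep i)).1
        exact this.symm
      · have h1 := (Prod.ext_iff.mp (hrep i)).2
        refine (dir_near hcell (j := j) h1.symm).trans ?_
        rw [hρ]
        gcongr
    choose fx hfx1 hfx2 using hex
    -- three conditional entropies
    have k1 : CH p (wc c) (Fl (dT k e) j) ≤ ((d + 1 : ℕ) : ℝ) * Real.log (2 * M₂ + 1) := by
      have := CH_le_vec hp.nonneg hp.sum_one (wc c) (Fl (dT k e) j) (fun _ => M₂)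
        (fun i i' _ _ _ r => by rw [hM₂]; exact wc_bdd hcell i i' r)
      rwa [Ex_const hp.sum_one] at this
    have k2 : CH p fx W ≤ Real.log A := by
      refine (CH_le_card hp.nonneg hp.sum_one fx W F (fun i _ => hfx1 i)).trans ?_
      rw [← Ex_const hp.sum_one (Real.log A)]
      refine Ex_mono hp.nonneg fun i _ => ?_
      refine Real.log_le_log ?_ (by exact_mod_cast hF1 (W i))
      exact_mod_cast Finset.card_pos.mpr ⟨_, hfx1 i⟩
    have k3 : CH p (Fl (uT k g c e) j) fx ≤ (d : ℝ) * Real.log (2 * M₁ + 1) := by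
      have := CH_le_vec hp.nonneg hp.sum_one (Fl (uT k g c e) j) fx (fun _ => M₁) ?_
      · rwa [Ex_const hp.sum_one] at this
      · intro i i' _ _ hii l
        have h1 := pos_near hcell hδ.le hcase (hF2 _ _ (hfx1 i)) (hfx2 i)
          (by rw [hii]; exact hfx2 i') l
        rw [hM₁]
        refine floor_near ?_
        rw [← mul_sub, abs_mul, abs_of_pos h2j]
        calc (2 : ℝ) ^ j * |uT k g c e i l - uT k g c e i' l|
            ≤ 2 ^ j * (6 * ((d : ℝ) + 1) * (L * ρ)) := by gcongr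
          _ = 6 * ((d : ℝ) + 1) * (L * M) := by
              rw [hρ]
              field_simp
    have s1 := CH_le_add hp.nonneg (Fl (uT k g c e) j) (wc c) (Fl (dT k e) j)
    have s2 : CH p (Fl (uT k g c e) j) W ≤ CH p fx W +
        CH p (Fl (uT k g c e) j) (fun i => (fx i, W i)) :=
      CH_le_add hp.nonneg (Fl (uT k g c e) j) fx W
    have s3 : CH p (Fl (uT k g c e) j) (fun i => (fx i, W i)) ≤
        CH p (Fl (uT k g c e) j) fx :=
      CH_mono_cond hp.nonneg (fun i i' _ _ h => (Prod.ext_iff.mp h).1)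
    have hlog : Real.log ((2 * M₂ + 1) ^ (d + 1) * (2 * M₁ + 1) ^ d * A) =
        ((d + 1 : ℕ) : ℝ) * Real.log (2 * M₂ + 1) + d * Real.log (2 * M₁ + 1) + Real.log A := by
      rw [Real.log_mul (by positivity) hA0.ne', Real.log_mul (by positivity) (by positivity),
        Real.log_pow, Real.log_pow]
    have hle : Real.log ((2 * M₂ + 1) ^ (d + 1) * (2 * M₁ + 1) ^ d * A) ≤
        Real.log (C₅ * A) := Real.log_le_log (by positivity) (by gcongr)
    have s1' : CH p (Fl (uT k g c e) j) (Fl (dT k e) j) ≤ CH p (wc c) (Fl (dT k e) j) +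
        CH p (Fl (uT k g c e) j) W := s1
    linarith
  · -- large scales
    push Not at hcase
    have h2M : (2 : ℝ) ^ j ≤ M₀ := by
      rw [hρ] at hcase
      have h1 : 4 * ((d : ℝ) + 1) * (L * (M * ((2 : ℝ) ^ j)⁻¹)) = M₀ / 2 ^ j := by
        rw [hM₀]; field_simp
      rw [h1, lt_div_iff₀ h2j] at hcase
      linarith
    have h1 := CH_le_vec hp.nonneg hp.sum_one (Fl (uT k g c e) j) (Fl (dT k e) j) (fun _ => M₀) ?_
    · rw [Ex_const hp.sum_one] at h1
      refine h1.trans ?_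
      rw [← Real.log_pow]
      refine Real.log_le_log (by positivity) ?_
      calc (2 * M₀ + 1) ^ d ≤ C₅ * 1 := by rw [mul_one]; exact hC1
        _ ≤ C₅ * A := by gcongr
    · intro i i' _ _ _ l
      have h3 : fl 0 (uT k g c e i) l = q l := congrFun (hcell.ps i) l
      have h3' : fl 0 (uT k g c e i') l = q l := congrFun (hcell.ps i') l
      have hb : ∀ i : ι, fl 0 (uT k g c e i) l = q l →
          2 ^ j * q l ≤ Fl (uT k g c e) j i l ∧ Fl (uT k g c e) j i l < 2 ^ j * (q l + 1) := by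
        intro i hi
        have h5 : ⌊uT k g c e i l⌋ = q l := by
          have : fl 0 (uT k g c e i) l = ⌊(2 : ℝ) ^ 0 * uT k g c e i l⌋ := rfl
          rw [this, pow_zero, one_mul] at hi
          exact hi
        rw [Int.floor_eq_iff] at h5
        show 2 ^ j * q l ≤ ⌊(2 : ℝ) ^ j * uT k g c e i l⌋ ∧
          ⌊(2 : ℝ) ^ j * uT k g c e i l⌋ < 2 ^ j * (q l + 1)
        constructor
        · rw [Int.le_floor]
          push_cast
          have := h5.1
          gcongr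
        · rw [Int.floor_lt]
          push_cast
          have := h5.2
          gcongr
      obtain ⟨a1, a2⟩ := hb i h3
      obtain ⟨b1, b2⟩ := hb i' h3'
      have h6 : |(Fl (uT k g c e) j i l - Fl (uT k g c e) j i' l : ℤ)| ≤ 2 ^ j := by
        rw [abs_le]
        constructor <;> linarith
      have h7 : |((Fl (uT k g c e) j i l - Fl (uT k g c e) j i' l : ℤ) : ℝ)| ≤ 2 ^ j := by
        exact_mod_cast h6
      exact h7.trans h2M

end Pool.STK
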