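import Pool.Agent.H90.STK.Stmts

/-!
# The doubling of a slice
-/

set_option autoImplicit false

namespace Pool.STK

open Finset Real MeasureTheory
open Pool.Agent.H49.Ent Pool.Agent.H32.Dense

/-- **D43**. -/
theorem d43_thm (hCN1 : CN1Stmt) (hCN3 : CN3Stmt) (hCN4 : CN4Stmt) : D43Stmt := by
  intro m Ω ζ _ p u d Z hp k r t₀ t ht
  have h1 := hCN1 m Ω ζ p u d Z hp k r t₀ t ht
  have h3 := hCN3 m Ω ζ p u d Z hp k r t₀ t ht
  have h4 := hCN4 m Ω ζ p u d Z hp k r t₀ t ht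
  unfold th TT II
  linarith

end Pool.STK
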