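import Pool.Agent.H90.STK.Stmts

/-!
# Sums with multiples of independent copies
-/

set_option autoImplicit false

namespace Pool.STK

open Finset Real MeasureTheory
open Pool.Agent.H49.Ent Pool.Agent.H32.Dense

namespace DIL

variable {Ω : Type} [Fintype Ω]

/-- Three independent copies. -/
def tr (p : Ω → ℝ) : (Ω × Ω) × Ω → ℝ := pr2 (pr2 p p) p

/-- Exchange of the last two copies. -/
def e23 (Ω : Type) : (Ω × Ω) × Ω ≃ (Ω × Ω) × Ω where
  toFun w := ((w.1.1, w.2), w.1.2)
  invFun w := ((w.1.1, w.2), w.1.2)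
  left_inv _ := rfl
  right_inv _ := rfl

/-- Exchange of the first and the last copy. -/
def e13 (Ω : Type) : (Ω × Ω) × Ω ≃ (Ω × Ω) × Ω where
  toFun w := ((w.2, w.1.2), w.1.1)
  invFun w := ((w.2, w.1.2), w.1.1)
  left_inv _ := rfl
  right_inv _ := rfl

lemma m23 (p : Ω → ℝ) : Marg (tr p) (tr p) (fun w => e23 Ω w) :=
  marg_of_equiv (e23 Ω) (fun w => by unfold tr pr2 e23; simp; ring)

lemma m13 (p : Ω → ℝ) : Marg (tr p) (tr p) (fun w => e13 Ω w) :=
  marg_of_equiv (e13 Ω) (fun w => by unfold tr pr2 e13; simp; ring)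

end DIL

open DIL in
/-- **DIL**. -/
theorem dil_thm (hKV : KVStmt) (hTRI : TRIStmt) (hPR2 : PR2Stmt) : DILStmt := by
  intro Ω G _ _ p hp X
  classical
  obtain ⟨hpp, m1, m2, hadd⟩ := hPR2 Ω Ω G G p p hp hp
  obtain ⟨htr, m12, m3, _⟩ := hPR2 (Ω × Ω) Ω G G (pr2 p p) p hpp hp
  have hadd3 := (hPR2 (Ω × Ω) Ω (G × G) G (pr2 p p) p hpp hp).2.2.2
  set θ : ℝ := H (pr2 p p) (fun w => X w.2 - X w.1) - H p X with hθ
  have htr' : IsLaw (tr p) := htr
  have M12 : Marg (tr p) (pr2 p p) (fun w => w.1) := m12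
  have M3 : Marg (tr p) p (fun w => w.2) := m3
  have M13 : Marg (tr p) (pr2 p p) (fun w => (w.1.1, w.2)) := (m23 p).comp M12
  have M32 : Marg (tr p) (pr2 p p) (fun w => (w.2, w.1.2)) := (m13 p).comp M12
  have M1 : Marg (tr p) p (fun w => w.1.1) := M12.comp m1
  have M2 : Marg (tr p) p (fun w => w.1.2) := M12.comp m2
  have hneg : ∀ {Ω₁ : Type} [Fintype Ω₁] (q : Ω₁ → ℝ) (_ : IsLaw q) (Y : Ω₁ → G),
      H q (fun w => -(Y w)) = H q Y := by
    intro Ω₁ _ q hq Y
    exact H_comp_injective hq.nonneg Y neg_injective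
  -- entropies on the triple product
  have t1 : H (tr p) (fun w => X w.1.1 - X w.2) = H p X + θ := by
    have h1 := M13.H (fun w => X w.1 - X w.2)
    have h2 := hneg (pr2 p p) hpp (fun w => X w.2 - X w.1)
    have h3 : (fun w : Ω × Ω => -(X w.2 - X w.1)) = fun w => X w.1 - X w.2 := by
      funext w; abel
    rw [h3] at h2
    rw [hθ]
    linarith
  have t2 : H (tr p) (fun w => X w.1.2 - X w.2) = H p X + θ := by
    have h1 := M32.H (fun w => X w.2 - X w.1)
    rw [hθ]
    linarith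
  have ind3 : ∀ (Y : Ω × Ω → G × G) (Y' : Ω → G),
      H (tr p) (fun w => (Y w.1, Y' w.2)) = H (pr2 p p) Y + H p Y' := fun Y Y' => hadd3 Y Y'
  have k1 : H (tr p) (fun w => X w.1.1 + X w.1.2 - X w.2) ≤ H p X + 2 * θ := by
    have h1 := hKV ((Ω × Ω) × Ω) G (tr p) htr' (fun w => -(X w.2)) (fun w => X w.1.1)
      (fun w => X w.1.2) ?_
    · have e1 : (fun w : (Ω × Ω) × Ω => -(X w.2) + X w.1.1 + X w.1.2) =
          fun w => X w.1.1 + X w.1.2 - X w.2 := by funext w; abel
      have e2 : (fun w : (Ω × Ω) × Ω => -(X w.2) + X w.1.1) = fun w => X w.1.1 - X w.2 := by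
        funext w; abel
      have e3 : (fun w : (Ω × Ω) × Ω => -(X w.2) + X w.1.2) = fun w => X w.1.2 - X w.2 := by
        funext w; abel
      have e4 : H (tr p) (fun w => -(X w.2)) = H p X := by
        rw [hneg _ htr']
        exact M3.H X
      rw [e1, e2, e3, e4, t1, t2] at h1
      linarith
    · have e4 : H (tr p) (fun w => -(X w.2)) = H p X := by
        rw [hneg _ htr']
        exact M3.H X
      have e5 : H (tr p) (fun w => X w.1.1) = H p X := M1.H X
      have e6 : H (tr p) (fun w => X w.1.2) = H p X := M2.H X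
      have e7 : H (tr p) (fun w => (-(X w.2), X w.1.1, X w.1.2)) =
          H (tr p) (fun w => ((X w.1.1, X w.1.2), X w.2)) := by
        refine H_congr htr'.nonneg ?_ ?_
        · intro w w' _ _ h
          simp only [Prod.mk.injEq] at h ⊢
          refine ⟨by rw [h.2], h.1.1, h.1.2⟩
        · intro w w' _ _ h
          simp only [Prod.mk.injEq, neg_inj] at h ⊢
          exact ⟨⟨h.2.1, h.2.2⟩, h.1⟩
      have e8 := ind3 (fun w => (X w.1, X w.2)) X
      have e9 := hadd X X
      rw [e4, e5, e6, e7, e8, e9]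
  have k2 : H (tr p) (fun w => X w.1.1 + (-1 : ℤ) • X w.1.2 - X w.2) ≤ H p X + 2 * θ := by
    have h1 := (m13 p).H (fun w => X w.1.1 + X w.1.2 - X w.2)
    have h2 := hneg (tr p) htr' (fun w => X w.1.1 + (-1 : ℤ) • X w.1.2 - X w.2)
    have h3 : (fun w : (Ω × Ω) × Ω => -(X w.1.1 + (-1 : ℤ) • X w.1.2 - X w.2)) =
        fun w => X (e13 Ω w).1.1 + X (e13 Ω w).1.2 - X (e13 Ω w).2 := by
      funext w
      show _ = X w.2 + X w.1.2 - X w.1.1
      rw [neg_one_zsmul]
      abel
    rw [h3, h1] at h2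
    linarith
  have hstep : ∀ (s c : ℤ), H (tr p) (fun w => X w.1.1 + s • X w.1.2 - X w.2) ≤ H p X + 2 * θ →
      H (pr2 p p) (fun w => X w.1 + (c + s) • X w.2) ≤
        H (pr2 p p) (fun w => X w.1 + c • X w.2) + 2 * θ := by
    intro s c hs
    have h1 := hTRI ((Ω × Ω) × Ω) G (tr p) htr' (fun w => c • X w.1.2) (fun w => -(X w.2))
      (fun w => -(X w.1.1) - s • X w.1.2) ?_
    · have e1 : (fun w : (Ω × Ω) × Ω => c • X w.1.2 - (-(X w.1.1) - s • X w.1.2)) =
          fun w => X w.1.1 + (c + s) • X w.1.2 := by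
        funext w; rw [add_smul]; abel
      have e2 : (fun w : (Ω × Ω) × Ω => c • X w.1.2 - -(X w.2)) =
          fun w => X w.2 + c • X w.1.2 := by funext w; abel
      have e3 : (fun w : (Ω × Ω) × Ω => -(X w.2) - (-(X w.1.1) - s • X w.1.2)) =
          fun w => X w.1.1 + s • X w.1.2 - X w.2 := by funext w; abel
      have e4 : H (tr p) (fun w => -(X w.2)) = H p X := by
        rw [hneg _ htr']
        exact M3.H X
      have e5 : H (tr p) (fun w => X w.1.1 + (c + s) • X w.1.2) =
          H (pr2 p p) (fun w => X w.1 + (c + s) • X w.2) :=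
        M12.H (fun w => X w.1 + (c + s) • X w.2)
      have e6 : H (tr p) (fun w => X w.2 + c • X w.1.2) =
          H (pr2 p p) (fun w => X w.1 + c • X w.2) :=
        M32.H (fun w => X w.1 + c • X w.2)
      rw [e1, e2, e3, e4, e5, e6] at h1
      linarith
    · have e4 : H (tr p) (fun w => -(X w.2)) = H p X := by
        rw [hneg _ htr']
        exact M3.H X
      have e5 : H (tr p) (fun w => (c • X w.1.2, -(X w.1.1) - s • X w.1.2)) =
          H (pr2 p p) (fun w => (c • X w.2, -(X w.1) - s • X w.2)) :=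
        M12.H (fun w => (c • X w.2, -(X w.1) - s • X w.2))
      have e6 : H (tr p) (fun w => ((c • X w.1.2, -(X w.1.1) - s • X w.1.2), -(X w.2))) =
          H (pr2 p p) (fun w => (c • X w.2, -(X w.1) - s • X w.2)) + H p (fun ω => -(X ω)) :=
        ind3 (fun w => (c • X w.2, -(X w.1) - s • X w.2)) (fun ω => -(X ω))
      have e7 := hneg p hp X
      rw [e4, e5, e6, e7]
  have k1' : H (tr p) (fun w => X w.1.1 + (1 : ℤ) • X w.1.2 - X w.2) ≤ H p X + 2 * θ := by
    simpa using k1
  have h0 : H (pr2 p p) (fun w => X w.1 + (0 : ℤ) • X w.2) = H p X := by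
    have := m1.H X
    simpa using this
  have hpos : ∀ n : ℕ, H (pr2 p p) (fun w => X w.1 + (n : ℤ) • X w.2) ≤
      H p X + n * (2 * θ) := by
    intro n
    induction n with
    | zero => simpa using h0.le
    | succ n ih =>
      have := hstep 1 n k1'
      push_cast
      linarith
  have hnegc : ∀ n : ℕ, H (pr2 p p) (fun w => X w.1 + (-(n : ℤ)) • X w.2) ≤
      H p X + n * (2 * θ) := by
    intro n
    induction n with
    | zero => simpa using h0.le
    | succ n ih =>
      have := hstep (-1) (-(n : ℤ)) k2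
      have e : (-(n : ℤ) + -1) = -((n + 1 : ℕ) : ℤ) := by push_cast; ring
      rw [e] at this
      push_cast at this ⊢
      linarith
  intro c
  obtain ⟨n, rfl | rfl⟩ := c.eq_nat_or_neg
  · have := hpos n
    simpa using this
  · have := hnegc n
    simpa using this

end Pool.STK
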