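import Pool.Agent.H90.STK.Stmts

/-!
# The Vandermonde step
-/

set_option autoImplicit false

namespace Pool.STK

open Finset Real MeasureTheory
open Pool.Agent.H49.Ent Pool.Agent.H32.Dense

namespace KEY

variable {m k₀ : ℕ} {Ω : Type}

/-- Power sums of the copies. -/
def zs (k₀ : ℕ) (A : Ω → (Fin m → ℤ) × (Fin m → ℤ)) (P : ℕ) (w : Fin k₀ → Ω) :
    (Fin m → ℤ) × (Fin m → ℤ) := ∑ j : Fin k₀, (((j : ℕ) : ℤ) ^ P) • A (w j)

/-- The slices of the copies. -/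
def ee (k₀ : ℕ) (A : Ω → (Fin m → ℤ) × (Fin m → ℤ)) (w : Fin k₀ → Ω) (j : Fin k₀) :
    Fin m → ℤ := ev (j : ℕ) (A (w j))

lemma zs_snd (A : Ω → (Fin m → ℤ) × (Fin m → ℤ)) (P : ℕ) (w : Fin k₀ → Ω) :
    (zs k₀ A P w).2 = ∑ j : Fin k₀, (((j : ℕ) : ℤ) ^ P) • (A (w j)).2 := by
  unfold zs
  rw [Prod.snd_sum]
  rfl

lemma zs_fst (A : Ω → (Fin m → ℤ) × (Fin m → ℤ)) (P : ℕ) (w : Fin k₀ → Ω) :
    (zs k₀ A P w).1 = ∑ j : Fin k₀, (((j : ℕ) : ℤ) ^ P) • (A (w j)).1 := by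
  unfold zs
  rw [Prod.fst_sum]
  rfl

lemma dir_succ (A : Ω → (Fin m → ℤ) × (Fin m → ℤ)) (P : ℕ) (w : Fin k₀ → Ω) :
    (zs k₀ A (P + 1) w).2 =
      ∑ j : Fin k₀, (((j : ℕ) : ℤ) ^ P) • ee k₀ A w j - (zs k₀ A P w).1 := by
  rw [zs_snd, zs_fst, ← Finset.sum_sub_distrib]
  refine Finset.sum_congr rfl fun j _ => ?_
  unfold ee ev
  rw [smul_add, smul_smul, pow_succ]
  abel

/-- The slices with the first power sums. -/
def Wv (k₀ : ℕ) (A : Ω → (Fin m → ℤ) × (Fin m → ℤ)) (P : ℕ) (w : Fin k₀ → Ω) :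
    (Fin k₀ → Fin m → ℤ) × (Fin P → (Fin m → ℤ) × (Fin m → ℤ)) :=
  (ee k₀ A w, fun i => zs k₀ A (i : ℕ) w)

end KEY

open KEY in
/-- **KEY**. -/
theorem key_thm (hPRD : PRDStmt) (hSUM : SUMStmt) (hVDM : VDMStmt) : KEYStmt := by
  intro m k₀ Ω _ p A hp hk
  classical
  have hP := hPRD Ω (Fin k₀) ((Fin m → ℤ) × (Fin m → ℤ)) p hp
  obtain ⟨hq, hmarg, hH⟩ := hP
  set q : (Fin k₀ → Ω) → ℝ := prd p with hqdef
  set T : ℝ := H (prd p : (Fin (k₀ - 1) × Fin k₀ → Ω) → ℝ) (TA k₀ A) with hT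
  -- entropies of the power sums
  have hz : ∀ P, P < k₀ - 1 → H q (zs k₀ A P) ≤ T := by
    intro P hPk
    have := hSUM Ω (Fin (k₀ - 1) × Fin k₀) (Fin k₀) ((Fin m → ℤ) × (Fin m → ℤ)) p A
      (fun x => ((x.2 : ℕ) : ℤ) ^ (x.1 : ℕ)) (fun j => (⟨P, hPk⟩, j)) hp
      (fun a b hab => (Prod.ext_iff.mp hab).2)
    exact this
  have hdir : ∀ P, H p (fun ω => (A ω).2) ≤ H q (fun w => (zs k₀ A P w).2) := by
    intro P
    have h1 := hSUM Ω (Fin k₀) Unit (Fin m → ℤ) p (fun ω => (A ω).2)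
      (fun j => ((j : ℕ) : ℤ) ^ P) (fun _ => ⟨1, by omega⟩) hp
      (fun a b _ => rfl)
    have h2 : H (prd p : (Unit → Ω) → ℝ) (fun w => ∑ i : Unit,
        ((((⟨1, by omega⟩ : Fin k₀) : ℕ) : ℤ) ^ P) • (A (w i)).2) = H p (fun ω => (A ω).2) := by
      obtain ⟨_, h3, _⟩ := hPRD Ω Unit ℕ p hp
      have h4 := (h3 ()).H (fun ω => (A ω).2)
      rw [← h4]
      congr 1
      funext w
      simp
    rw [h2] at h1
    refine h1.trans (le_of_eq ?_)
    congr 1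
    funext w
    rw [zs_snd]
  -- chain rule
  have hstep : ∀ P, 1 ≤ P → P < k₀ - 1 →
      H q (Wv k₀ A (P + 1)) + H p (fun ω => (A ω).2) ≤ H q (Wv k₀ A P) + T := by
    intro P hP1 hPk
    have h1 := submod (p := q) hq.nonneg (X := Wv k₀ A P) (Y := zs k₀ A P)
      (Z := fun w => (zs k₀ A P w).2) (W := Wv k₀ A (P + 1)) ?_ ?_ ?_
    · have h2 := hz P hPk
      have h3 := hdir P
      linarith
    · intro w w' _ _ h
      obtain ⟨Q, rfl⟩ : ∃ Q, P = Q + 1 := ⟨P - 1, by omega⟩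
      have h4 := (Prod.ext_iff.mp h)
      have h5 : ee k₀ A w = ee k₀ A w' := h4.1
      have h6 : zs k₀ A Q w = zs k₀ A Q w' := congrFun h4.2 ⟨Q, by omega⟩
      simp only [dir_succ, h5, h6]
    · intro w w' _ _ h
      simp only [h]
    · intro w w' _ _ h
      have h4 := (Prod.ext_iff.mp h)
      have h5 := (Prod.ext_iff.mp h4.1)
      refine Prod.ext h5.1 ?_
      funext i
      by_cases hi : (i : ℕ) < P
      · exact congrFun h5.2 ⟨i, hi⟩
      · have : (i : ℕ) = P := by omega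
        show zs k₀ A (i : ℕ) w = zs k₀ A (i : ℕ) w'
        rw [this]
        exact h4.2
  have hbase : H q (Wv k₀ A 1) ≤ H q (ee k₀ A) + T := by
    have h1 := subadd (p := q) hq.nonneg hq.sum_one (X := ee k₀ A) (Y := zs k₀ A 0)
      (W := Wv k₀ A 1) (fun w w' _ _ h => by
        have h4 := (Prod.ext_iff.mp h)
        refine Prod.ext h4.1 ?_
        funext i
        have : (i : ℕ) = 0 := by omega
        show zs k₀ A (i : ℕ) w = zs k₀ A (i : ℕ) w'
        rw [this]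
        exact h4.2)
    have h2 := hz 0 (by omega)
    linarith
  have hind : ∀ P, P + 1 ≤ k₀ - 1 →
      H q (Wv k₀ A (P + 1)) + P * H p (fun ω => (A ω).2) ≤ H q (ee k₀ A) + (P + 1) * T := by
    intro P
    induction P with
    | zero => intro _; simpa using hbase
    | succ P ih =>
      intro hPk
      have h1 := ih (by omega)
      have h2 := hstep (P + 1) (by omega) (by omega)
      push_cast
      linarith
  have hfin := hind (k₀ - 2) (by omega)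
  have hL : H q (fun w j => A (w j)) ≤ H q (Wv k₀ A (k₀ - 2 + 1)) := by
    refine H_mono hq.nonneg ?_
    intro w w' _ _ h
    have h4 := (Prod.ext_iff.mp h)
    have h5 : ee k₀ A w = ee k₀ A w' := h4.1
    have h6 : ∀ P, P < k₀ - 1 → zs k₀ A P w = zs k₀ A P w' := fun P hP =>
      congrFun h4.2 ⟨P, by omega⟩
    have h7 : (fun j => (A (w j)).2) = fun j => (A (w' j)).2 := by
      refine hVDM k₀ m _ _ ?_
      intro P hPk
      rw [← zs_snd, ← zs_snd]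
      by_cases hP : P < k₀ - 1
      · rw [h6 P hP]
      · obtain ⟨Q, rfl⟩ : ∃ Q, P = Q + 1 := ⟨P - 1, by omega⟩
        rw [dir_succ, dir_succ, h5, h6 Q (by omega)]
    funext j
    have h8 : (A (w j)).2 = (A (w' j)).2 := congrFun h7 j
    have h9 : ee k₀ A w j = ee k₀ A w' j := congrFun h5 j
    refine Prod.ext ?_ h8
    unfold ee ev at h9
    rw [h8] at h9
    exact add_right_cancel h9
  have e1 : H q (fun w j => A (w j)) = k₀ * H p A := by
    have := hH (fun _ => A)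
    rw [this]
    simp
  have e2 : H q (ee k₀ A) = ∑ j ∈ Finset.range k₀, H p (fun ω => ev j (A ω)) := by
    obtain ⟨_, _, h3⟩ := hPRD Ω (Fin k₀) (Fin m → ℤ) p hp
    have := h3 (fun j ω => ev (j : ℕ) (A ω))
    rw [Finset.sum_range]
    exact this
  have hc : ((k₀ - 2 : ℕ) : ℝ) = (k₀ : ℝ) - 2 := by
    rw [Nat.cast_sub (by omega)]
    norm_num
  rw [hc, e2] at hfin
  rw [e1] at hL
  nlinarith [hfin, hL]

end Pool.STK
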