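import Pool.Agent.H90.STK.Stmts

/-!
# Small doubling at times in arithmetic progression, integer form
-/

set_option autoImplicit false

namespace Pool.STK

open Finset Real MeasureTheory
open Pool.Agent.H49.Ent Pool.Agent.H32.Dense

/-- **SDI**. -/
theorem sdi_thm (hITR : ITRStmt) (hDIL : DILStmt) : SDIStmt := by
  intro m k₀ S hk hS Ω _ p l M hp hM hl
  have hpp : ∀ w : Ω × Ω, 0 ≤ pr2 p p w := fun w => mul_nonneg (hp.nonneg _) (hp.nonneg _)
  have hctl : ∀ j : ℕ, Ctl p (fun ω => ev j (l ω)) p (fun ω => ev j (l ω))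
      (2 * (H (pr2 p p) (fun w => ev j (l w.2) - ev j (l w.1)) - H p (fun ω => ev j (l ω)))) :=
    fun j => hDIL Ω (Fin m → ℤ) p hp (fun ω => ev j (l ω))
  have hC : ∀ j : ℕ, 0 ≤
      2 * (H (pr2 p p) (fun w => ev j (l w.2) - ev j (l w.1)) - H p (fun ω => ev j (l ω))) := by
    intro j
    have h1 := hctl j (-1)
    have h2 : H (pr2 p p) (fun w => -(ev j (l w.2) - ev j (l w.1))) =
        H (pr2 p p) (fun w => ev j (l w.2) - ev j (l w.1)) :=
      H_comp_injective hpp (fun w => ev j (l w.2) - ev j (l w.1)) neg_injective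
    have h3 : (fun w : Ω × Ω => -(ev j (l w.2) - ev j (l w.1))) =
        fun w => ev j (l w.1) + (-1 : ℤ) • ev j (l w.2) := by
      funext w
      rw [neg_one_zsmul]
      abel
    rw [h3] at h2
    simp only [Int.cast_neg, Int.cast_one, abs_neg, abs_one, one_mul] at h1
    linarith
  have hKc : 0 ≤ Kc k₀ := by
    unfold Kc
    exact Finset.sum_nonneg fun x _ => by positivity
  have hSpos : (0 : ℝ) < S := by exact_mod_cast hS
  have hlog : 0 ≤ Real.log (2 * (Kc k₀ ^ S * M) + 1) := by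
    refine Real.log_nonneg ?_
    have : 0 ≤ Kc k₀ ^ S * M := by positivity
    linarith
  have hnum : 0 ≤ 2 * m * Real.log (2 * (Kc k₀ ^ S * M) + 1) + 1 := by positivity
  have hHA := H_nonneg hp.nonneg hp.sum_one l
  refine hITR m k₀ hk Ω p (fun j ω => ev j (l ω)) (H p (fun ω => (l ω).2))
    ((2 * m * Real.log (2 * (Kc k₀ ^ S * M) + 1) + 1) / S) hp (by positivity) S Ω p l M
    (fun j => 2 * (H (pr2 p p) (fun w => ev j (l w.2) - ev j (l w.1)) -
      H p (fun ω => ev j (l ω)))) hp hM hl hC (fun j _ => hctl j) le_rfl ?_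
  rw [mul_div_cancel₀ _ hSpos.ne']
  linarith

end Pool.STK
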