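import Pool.Agent.H90.STK.StmtsT

/-!
# The union of a sticky family of tubes
-/

set_option autoImplicit false

namespace Pool.STK

open Finset Real MeasureTheory
open scoped RealInnerProductSpace
open Pool.Agent.H49.Ent Pool.Agent.H32.Dense
open Pool.Agent.H53.Kak (E tube)
open Pool.Agent.H53.Dns (Mx psl slp)

namespace TUB

/-- Conditioning on a constant. -/
lemma CH_unit {Ω S : Type} [Fintype Ω] {p : Ω → ℝ} (hp : IsLaw p) (X : Ω → S) :
    CH p X (fun _ => ()) = H p X := by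
  unfold CH
  rw [H_const hp.sum_one]
  have : H p (fun ω => (X ω, ())) = H p X :=
    H_comp_injective hp.nonneg X (f := fun s => (s, ())) (fun a b h => (Prod.ext_iff.mp h).1)
  rw [this, sub_zero]

lemma exists_J {c δ : ℝ} (hc : 0 < c) (hc1 : c ≤ 1) (hδ : 0 < δ) (hδ1 : δ < 1) :
    ∃ J : ℕ, ((2 : ℝ) ^ J)⁻¹ ≤ c * δ ∧ c / 2 * δ ≤ ((2 : ℝ) ^ J)⁻¹ := by
  have hcd : 0 < c * δ := mul_pos hc hδ
  have h1 : 1 ≤ (c * δ)⁻¹ := by
    rw [one_le_inv₀ hcd]
    nlinarith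
  obtain ⟨n, h2, h3⟩ := exists_nat_pow_near h1 (by norm_num : (1 : ℝ) < 2)
  refine ⟨n + 1, ?_, ?_⟩
  · rw [inv_le_comm₀ (by positivity) hcd]
    exact h3.le
  · rw [pow_succ, mul_inv]
    have h4 : c * δ ≤ ((2 : ℝ) ^ n)⁻¹ := by
      rw [le_inv_comm₀ hcd (by positivity)]
      exact h2
    linarith

/-- The good case. -/
lemma good_case {d : ℕ} (hd : 1 ≤ d) {ε c' C N δ I : ℝ} {J : ℕ} (hε : 0 < ε) (hc : 0 < c')
    (hc1 : c' ≤ 1) (hC : 1 ≤ C) (hN : 0 < N) (hδ : 0 < δ) (hδ1 : δ < 1)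
    (hNC : N ≤ C * (δ ^ d)⁻¹) (hJ : c' * δ ≤ ((2 : ℝ) ^ J)⁻¹)
    (hI : Real.log N ≤ (1 + ε / (2 * d)) * I + ε * Real.log 2 / 2 * J) :
    N * (C⁻¹ * δ ^ ε * c' ^ (ε / 2)) ≤ Real.exp I := by
  have hd0 : (0 : ℝ) < d := by exact_mod_cast hd
  have hC0 : 0 < C := by linarith
  have hL : Real.log (N * (C⁻¹ * δ ^ ε * c' ^ (ε / 2))) =
      Real.log N - Real.log C + ε * Real.log δ + ε / 2 * Real.log c' := by
    rw [Real.log_mul hN.ne' (by positivity), Real.log_mul (by positivity) (by positivity),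
      Real.log_mul (by positivity) (by positivity), Real.log_inv, Real.log_rpow hδ,
      Real.log_rpow hc]
    ring
  rw [← Real.log_le_iff_le_exp (by positivity), hL]
  have l1 : Real.log N ≤ Real.log C - d * Real.log δ := by
    have := Real.log_le_log hN hNC
    rw [Real.log_mul hC0.ne' (by positivity), Real.log_inv, Real.log_pow] at this
    linarith
  have l2 : Real.log c' + Real.log δ ≤ -(J * Real.log 2) := by
    have := Real.log_le_log (by positivity) hJ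
    rw [Real.log_mul hc.ne' hδ.ne', Real.log_inv, Real.log_pow] at this
    linarith
  have l3 : Real.log δ < 0 := Real.log_neg hδ hδ1
  have l4 : Real.log c' ≤ 0 := Real.log_nonpos hc.le hc1
  have l5 : 0 ≤ Real.log C := Real.log_nonneg hC
  set α : ℝ := ε / (2 * d) with hα
  have hα0 : 0 < α := by positivity
  have hαd : α * d = ε / 2 := by rw [hα]; field_simp
  set x := Real.log N
  set y := Real.log C
  set z := Real.log δ
  set v := Real.log c'
  have k1 : α * x ≤ α * y - ε / 2 * z := by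
    have := mul_le_mul_of_nonneg_left l1 hα0.le
    calc α * x ≤ α * (y - d * z) := this
      _ = α * y - (α * d) * z := by ring
      _ = _ := by rw [hαd]
  have k2 : ε * Real.log 2 / 2 * J ≤ -(ε / 2 * (v + z)) := by
    have := mul_le_mul_of_nonneg_left l2 (by positivity : (0 : ℝ) ≤ ε / 2)
    linarith
  have k3 : 0 ≤ α * ε * (-z) := by
    have : 0 ≤ -z := by linarith
    positivity
  have k4 : 0 ≤ α * (ε / 2) * (-v) := by
    have : 0 ≤ -v := by linarith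
    positivity
  have k5 : (1 + α) * (x - y + ε * z + ε / 2 * v) ≤ (1 + α) * I := by
    nlinarith [k1, k2, k3, k4, hI]
  exact le_of_mul_le_mul_left k5 (by linarith)

/-- The bad case. -/
lemma bad_case {d : ℕ} {C C₅ ε₀ D δ cl : ℝ} {J J₀ A : ℕ}
    (hC : 1 ≤ C) (hδ : 0 < δ) (hC₅ : 1 ≤ C₅) (hε₀ : 0 < ε₀) (hA : 1 ≤ A)
    (hJ : ((2 : ℝ) ^ J)⁻¹ ≤ δ)
    (hD1 : D ≤ cl / (C * ((2 : ℝ) ^ J₀) ^ d))
    (hD2 : D ≤ cl / (C * C₅ ^ (d * Real.log 2 / ε₀))) (hD0 : 0 < D)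
    (hbad : ¬ (Real.log (C₅ * A) ≤ ε₀ * J ∧ J₀ ≤ J)) :
    D * (A : ℝ) ^ (-(d * Real.log 2 / ε₀)) * C ≤ cl * δ ^ d := by
  have hlog2 : 0 < Real.log 2 := Real.log_pos (by norm_num)
  have hC0 : 0 < C := by linarith
  have hC5 : 0 < C₅ := by linarith
  have hA0 : (0 : ℝ) < A := by exact_mod_cast hA
  have hA1 : (1 : ℝ) ≤ A := by exact_mod_cast hA
  set K : ℝ := d * Real.log 2 / ε₀ with hK
  have hK0 : 0 ≤ K := by positivity
  by_cases h : J₀ ≤ J
  · have h1 : ε₀ * J < Real.log (C₅ * A) := by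
      by_contra h2
      exact hbad ⟨not_lt.mp h2, h⟩
    rw [Real.log_mul hC5.ne' hA0.ne'] at h1
    have h2 : -(J * Real.log 2) ≤ Real.log δ := by
      have := Real.log_le_log (by positivity) hJ
      rwa [Real.log_inv, Real.log_pow] at this
    have h3 : (A : ℝ) ^ (-K) ≤ C₅ ^ K * δ ^ d := by
      rw [← Real.log_le_log_iff (by positivity) (by positivity), Real.log_rpow hA0,
        Real.log_mul (by positivity) (by positivity), Real.log_rpow hC5, Real.log_pow]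
      have h4 : K * (ε₀ * J) ≤ K * (Real.log C₅ + Real.log A) :=
        mul_le_mul_of_nonneg_left h1.le hK0
      have h5 : K * ε₀ = d * Real.log 2 := by rw [hK]; field_simp
      have h6 : K * (ε₀ * J) = d * (J * Real.log 2) := by
        rw [← mul_assoc, h5]; ring
      have h7 : (d : ℝ) * (-(J * Real.log 2)) ≤ d * Real.log δ :=
        mul_le_mul_of_nonneg_left h2 (by positivity)
      rw [h6] at h4
      linarith
    have h8 : D * (C * C₅ ^ K) ≤ cl := by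
      rw [le_div_iff₀ (by positivity)] at hD2
      exact hD2
    calc D * (A : ℝ) ^ (-K) * C ≤ D * (C₅ ^ K * δ ^ d) * C := by gcongr
      _ = D * (C * C₅ ^ K) * δ ^ d := by ring
      _ ≤ cl * δ ^ d := by gcongr
  · push Not at h
    have h1 : (A : ℝ) ^ (-K) ≤ 1 :=
      Real.rpow_le_one_of_one_le_of_nonpos hA1 (by linarith)
    have h2 : D * (C * ((2 : ℝ) ^ J₀) ^ d) ≤ cl := by
      rw [le_div_iff₀ (by positivity)] at hD1
      exact hD1
    have h3 : 1 ≤ ((2 : ℝ) ^ J₀) * δ := by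
      have h4 : ((2 : ℝ) ^ J₀)⁻¹ ≤ δ := by
        refine le_trans ?_ hJ
        gcongr
        norm_num
      rwa [inv_le_iff_one_le_mul₀' (by positivity)] at h4
    have h5 : 1 ≤ ((2 : ℝ) ^ J₀) ^ d * δ ^ d := by
      rw [← mul_pow]
      exact one_le_pow₀ h3
    calc D * (A : ℝ) ^ (-K) * C ≤ D * 1 * C := by gcongr
      _ = D * C * 1 := by ring
      _ ≤ D * C * (((2 : ℝ) ^ J₀) ^ d * δ ^ d) := by gcongr
      _ = D * (C * ((2 : ℝ) ^ J₀) ^ d) * δ ^ d := by ring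
      _ ≤ cl * δ ^ d := by gcongr

end TUB

open TUB in
/-- **TUB**. -/
theorem tub_thm (hE : EStmt) (hTVL : TVLStmt) (hTDS : TDSStmt) (hTST : TSTStmt)
    (hTOV : TOVStmt) (hTCD : TCDStmt) : TUBStmt := by
  intro d hd ε L hε hL
  have hd0 : (0 : ℝ) < d := by exact_mod_cast hd
  obtain ⟨c₁, hc₁, c₂, hc₂, hV⟩ := hTVL d
  obtain ⟨c₃, hc₃, hS⟩ := hTDS d
  obtain ⟨c₆, hc₆, hO⟩ := hTOV d
  obtain ⟨C₇, hC₇, hD⟩ := hTCD d
  obtain ⟨cm, hcmdef⟩ : ∃ cm, cm = min (min c₂ c₃) 1 := ⟨_, rfl⟩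
  have hcm0 : 0 < cm := by rw [hcmdef]; exact lt_min (lt_min hc₂ hc₃) one_pos
  have hcm1 : cm ≤ 1 := by rw [hcmdef]; exact min_le_right _ _
  have hcm2 : cm ≤ c₂ := by rw [hcmdef]; exact (min_le_left _ _).trans (min_le_left _ _)
  have hcm3 : cm ≤ c₃ := by rw [hcmdef]; exact (min_le_left _ _).trans (min_le_right _ _)
  obtain ⟨c', hc'def⟩ : ∃ c', c' = cm / 2 := ⟨_, rfl⟩
  have hc'0 : 0 < c' := by rw [hc'def]; positivity
  have hc'1 : c' ≤ 1 := by rw [hc'def]; linarith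
  obtain ⟨C₅, hC₅, hT⟩ := hTST d L c' hL hc'0
  have hlog2 : 0 < Real.log 2 := Real.log_pos (by norm_num)
  obtain ⟨ε₀, hε₀, J₀, hG⟩ := hE d (1 + ε / (2 * d)) (ε * Real.log 2 / 2)
    (by have : 0 < ε / (2 * (d : ℝ)) := by positivity
        linarith) (by positivity)
  obtain ⟨C, hCdef⟩ : ∃ C, C = max C₇ 1 := ⟨_, rfl⟩
  have hC1 : 1 ≤ C := by rw [hCdef]; exact le_max_right _ _
  have hC7 : C₇ ≤ C := by rw [hCdef]; exact le_max_left _ _
  have hC0 : 0 < C := by linarith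
  have hC50 : 0 < C₅ := by linarith
  obtain ⟨D, hDdef⟩ : ∃ D, D = min (c₁ * c' ^ d * (C⁻¹ * c' ^ (ε / 2)))
    (min (c₁ * c' ^ d / (C * ((2 : ℝ) ^ J₀) ^ d))
      (c₁ * c' ^ d / (C * C₅ ^ (d * Real.log 2 / ε₀)))) := ⟨_, rfl⟩
  have hD0 : 0 < D := by
    rw [hDdef]
    exact lt_min (by positivity) (lt_min (by positivity) (by positivity))
  have hD1 : D ≤ c₁ * c' ^ d * (C⁻¹ * c' ^ (ε / 2)) := by rw [hDdef]; exact min_le_left _ _
  have hD2 : D ≤ c₁ * c' ^ d / (C * ((2 : ℝ) ^ J₀) ^ d) := by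
    rw [hDdef]; exact (min_le_right _ _).trans (min_le_left _ _)
  have hD3 : D ≤ c₁ * c' ^ d / (C * C₅ ^ (d * Real.log 2 / ε₀)) := by
    rw [hDdef]; exact (min_le_right _ _).trans (min_le_right _ _)
  refine ⟨d * Real.log 2 / ε₀, (c₆ * D)⁻¹, by positivity, by positivity, ?_⟩
  intro δ hδ hδ1 N c e hu hsep A hA hcov
  obtain ⟨K, hK⟩ : ∃ K, K = d * Real.log 2 / ε₀ := ⟨_, rfl⟩
  rw [← hK] at hD3 ⊢
  have hK0 : 0 ≤ K := by rw [hK]; positivity
  have hA1 : (1 : ℝ) ≤ A := by exact_mod_cast hA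
  have hA0 : (0 : ℝ) < A := by linarith
  have hAK : (A : ℝ) ^ (-K) ≤ 1 := Real.rpow_le_one_of_one_le_of_nonpos hA1 (by linarith)
  have hAK0 : 0 < (A : ℝ) ^ (-K) := by positivity
  have hmain := hO δ (D * δ ^ ε * (A : ℝ) ^ (-K) * δ ^ d) hδ hδ1 (by positivity) (Fin N) c e hu ?_
  · refine le_trans (le_of_eq ?_) hmain
    congr 1
    rw [inv_inv, Fintype.card_fin]
    ring
  intro κ _ f k g q hf hcell
  rcases isEmpty_or_nonempty κ with hκ | hκ
  · simp
  obtain ⟨J, hJ1, hJ2⟩ := exists_J hcm0 hcm1 hδ hδ1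
  rw [← hc'def] at hJ2
  have hN0 : (0 : ℝ) < Fintype.card κ := by exact_mod_cast Fintype.card_pos
  have hsepf : ∀ i i', i ≠ i' → δ ≤ ‖e (f i) - e (f i')‖ := fun i i' h =>
    hsep _ _ (fun h' => h (hf h'))
  have hNC : (Fintype.card κ : ℝ) ≤ C * (δ ^ d)⁻¹ := by
    refine (hD δ hδ hδ1 κ (fun i => e (f i)) (fun i => hu _) hsepf).trans ?_
    gcongr
  obtain ⟨p, hpdef⟩ : ∃ p : κ → ℝ, p = fun _ => (Fintype.card κ : ℝ)⁻¹ := ⟨_, rfl⟩
  have hp : IsLaw p := by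
    rw [hpdef]
    refine ⟨fun _ => by positivity, ?_⟩
    rw [Finset.sum_const, Finset.card_univ, nsmul_eq_mul, mul_inv_cancel₀ hN0.ne']
  have hvol := hV δ J hδ hδ1 (hJ1.trans (by gcongr)) κ (fun i => c (f i)) (fun i => e (f i)) k g q
    hcell p hp
  refine le_trans (ENNReal.ofReal_le_ofReal ?_) hvol
  obtain ⟨I, hIdef⟩ : ∃ I, I = ∫ s in (0 : ℝ)..1, H p (Xp (uT k g (fun i => c (f i))
    (fun i => e (f i))) (dT k (fun i => e (f i))) s J) := ⟨_, rfl⟩
  rw [← hIdef]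
  have hI0 : 0 ≤ I := by
    rw [hIdef]
    exact intervalIntegral.integral_nonneg (by norm_num)
      (fun s _ => H_nonneg hp.nonneg hp.sum_one _)
  have hJd : c' ^ d * δ ^ d ≤ (((2 : ℝ) ^ J)⁻¹) ^ d := by
    rw [← mul_pow]
    exact pow_le_pow_left₀ (by positivity) hJ2 d
  have hδd : δ ^ d * (δ ^ d)⁻¹ = 1 := mul_inv_cancel₀ (by positivity)
  have hδε : δ ^ ε ≤ 1 := Real.rpow_le_one hδ.le hδ1.le hε.le
  by_cases hgood : Real.log (C₅ * A) ≤ ε₀ * J ∧ J₀ ≤ J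
  · have hst : Sticky p (uT k g (fun i => c (f i)) (fun i => e (f i)))
        (dT k (fun i => e (f i))) (fun _ => ()) ε₀ J := by
      intro j hj
      have h1 := hT δ J A hδ hδ1 hJ2 κ (fun i => c (f i)) (fun i => e (f i)) k g q hcell hA
        (fun ρ h2 h3 x v hv => by
          obtain ⟨F, h4, h5, h6⟩ := hcov ρ h2 h3 x v hv
          exact ⟨F, h4, h5, fun i => h6 (f i)⟩) p hp j hj
      refine le_trans (CH_mono_cond hp.nonneg ?_) (h1.trans hgood.1)
      intro ω ω' _ _ h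
      exact (Prod.ext_iff.mp h).1
    have h2 := hG J hgood.2 κ Unit p (uT k g (fun i => c (f i)) (fun i => e (f i)))
      (dT k (fun i => e (f i))) (fun _ => ()) hp (by
        intro i l
        have h3 := (hcell.mx i).slp (hcell.unit i) l
        have h4 : hm d ≤ 1 := by
          unfold hm
          rw [div_le_one (by positivity)]
          have : (0 : ℝ) ≤ d := by positivity
          linarith
        have h5 : 0 ≤ hm d := by unfold hm; positivity
        unfold dT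
        rw [abs_mul, abs_of_nonneg h5]
        exact mul_le_one₀ h4 (abs_nonneg _) h3) hst
    have h3 : Xav p (uT k g (fun i => c (f i)) (fun i => e (f i)))
        (dT k (fun i => e (f i))) (fun _ => ()) J = I := by
      rw [hIdef]
      unfold Xav
      refine intervalIntegral.integral_congr fun s _ => ?_
      exact CH_unit hp _
    rw [CH_unit hp, h3] at h2
    have h4 : H p (Fl (dT k (fun i => e (f i))) J) = Real.log (Fintype.card κ) := by
      rw [hpdef]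
      exact H_uniform (hS δ J hδ hδ1 (hJ1.trans (by gcongr)) κ (fun i => c (f i))
        (fun i => e (f i)) k g q hcell hsepf)
    rw [h4] at h2
    have h5 := good_case hd hε hc'0 hc'1 hC1 hN0 hδ hδ1 hNC hJ2 h2
    calc D * δ ^ ε * (A : ℝ) ^ (-K) * δ ^ d * (Fintype.card κ : ℝ)
        ≤ (c₁ * c' ^ d * (C⁻¹ * c' ^ (ε / 2))) * δ ^ ε * 1 * δ ^ d * (Fintype.card κ : ℝ) := by
          gcongr
      _ = c₁ * (c' ^ d * δ ^ d) * ((Fintype.card κ : ℝ) * (C⁻¹ * δ ^ ε * c' ^ (ε / 2))) := by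
          ring
      _ ≤ c₁ * (((2 : ℝ) ^ J)⁻¹) ^ d * Real.exp I := by
          gcongr
  · have h1 := bad_case (d := d) (cl := c₁ * c' ^ d) hC1 hδ hC₅ hε₀ hA
      (hJ1.trans (by nlinarith)) hD2 (by rw [← hK]; exact hD3) hD0 hgood
    rw [← hK] at h1
    calc D * δ ^ ε * (A : ℝ) ^ (-K) * δ ^ d * (Fintype.card κ : ℝ)
        ≤ D * 1 * (A : ℝ) ^ (-K) * δ ^ d * (C * (δ ^ d)⁻¹) := by
          gcongr
      _ = D * (A : ℝ) ^ (-K) * C * (δ ^ d * (δ ^ d)⁻¹) := by ring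
      _ = D * (A : ℝ) ^ (-K) * C := by rw [hδd, mul_one]
      _ ≤ c₁ * c' ^ d * δ ^ d := h1
      _ = c₁ * (c' ^ d * δ ^ d) * 1 := by ring
      _ ≤ c₁ * (((2 : ℝ) ^ J)⁻¹) ^ d * Real.exp I := by
          have := Real.one_le_exp hI0
          gcongr

end Pool.STK
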